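import Pool.Agent.N741.HB.Stm2
import Pool.Agent.N54.HB.A2
import Pool.Agent.N54.HB.A3
import Pool.Agent.N618.HB.Dir
import Pool.Agent.N966.HB.Can

/-! Project HB, task 17: functions with trivial divisors are constant. -/

set_option autoImplicit false

namespace Pool.Agent.N426.HB

open MvPolynomial Pool.Agent.N741.HB Pool.Agent.N54.HB Pool.Agent.W603.LV

/-! ### orders and heights -/

section ff

open FF

variable {k K : Type} [Field k] [Field K] [Algebra k K] [CharZero k] [IsFF k K]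

theorem neg_ord_le (P : Place k K) (f : K) : -P.ord f ≤ hgt k f := by
  obtain ⟨T, hT⟩ := exists_supp (k := k) (Finset.univ : Finset (Fin 1)) ![f]
  have h1 : ∀ P : Place k K, P.ord f ≠ 0 → P ∈ T := fun P => hT 0 (Finset.mem_univ _) P
  by_cases h : P.ord f = 0
  · rw [h, neg_zero]
    exact hgt_nonneg f
  · rw [hgt_finset f T h1]
    refine (le_max_left _ 0).trans ?_
    exact Finset.single_le_sum (f := fun P : Place k K => max (-P.ord f) 0)
      (fun _ _ => le_max_right _ _) (h1 P h)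

theorem abs_ord_le [IsAlgClosed k] (P : Place k K) (f : K) : |P.ord f| ≤ hgt k f := by
  rw [abs_le]
  constructor
  · have := neg_ord_le P f
    linarith
  · have h1 := neg_ord_le P f⁻¹
    rw [P.ord_inv, neg_neg, hgt_inv] at h1
    exact h1

/-- a function of small height, a bounded power of which is a high power, is constant -/
theorem const_of_pow [IsAlgClosed k] {f η : K} {M κ r : ℕ} (hM : hgt k f ≤ M)
    (hr : κ * M < r) (h : f ^ κ = η ^ r) (hκ : 1 ≤ κ) : ∃ c : k, f = algebraMap k K c := by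
  apply const_of_hgt
  obtain ⟨T, hT⟩ := exists_supp (k := k) (Finset.univ : Finset (Fin 1)) ![f]
  have h1 : ∀ P : Place k K, P.ord f ≠ 0 → P ∈ T := fun P => hT 0 (Finset.mem_univ _) P
  rw [hgt_finset f T h1]
  refine Finset.sum_nonpos fun P _ => ?_
  have h2 := congrArg P.ord h
  rw [P.ord_pow, P.ord_pow] at h2
  have h3 : P.ord f = 0 := by
    by_contra h4
    have h5 : P.ord η ≠ 0 := by
      intro h6
      rw [h6, mul_zero] at h2
      rcases mul_eq_zero.1 h2 with h7 | h7
      · have : κ = 0 := by exact_mod_cast h7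
        omega
      · exact h4 h7
    have h6 : 1 ≤ |P.ord η| := Int.one_le_abs h5
    have h7 : (κ : ℤ) * |P.ord f| = r * |P.ord η| := by
      have := congrArg abs h2
      rw [abs_mul, abs_mul, Nat.abs_cast, Nat.abs_cast] at this
      exact this
    have h8 := abs_ord_le P f
    have h9 : (κ : ℤ) * |P.ord f| ≤ κ * M :=
      mul_le_mul_of_nonneg_left (h8.trans hM) (Int.natCast_nonneg _)
    have h10 : (r : ℤ) * 1 ≤ r * |P.ord η| := mul_le_mul_of_nonneg_left h6 (Int.natCast_nonneg _)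
    have h11 : (κ : ℤ) * M < r := by exact_mod_cast hr
    linarith
  rw [h3]
  simp

end ff

/-! ### one direction -/

theorem dirC (hc : S_can) (Ω : Type) [Field Ω] [CharZero Ω] [IsAlgClosed Ω] (d : ℕ) (t : Fin d → Ω)
    (θ : Ω) (b : Fin d) (ht : AlgebraicIndependent ℤ t) (c₀ D : ℕ)
    (h A F : MvPolynomial (Option (Fin d)) ℤ) (hne : h ≠ 0) (hdeg : h.totalDegree ≤ c₀)
    (hA : A.totalDegree ≤ c₀ * D) (hF : F.totalDegree ≤ c₀ * D)
    (hh : aeval (fun o : Option (Fin d) => o.elim θ t) h = 0)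
    (hA0 : aeval (fun o : Option (Fin d) => o.elim θ t) A ≠ 0)
    (hF0 : aeval (fun o : Option (Fin d) => o.elim θ t) F ≠ 0)
    (κ r : ℕ) (g₁ g₂ : MvPolynomial (Option (Fin d)) ℤ) (hκ1 : 1 ≤ κ)
    (hr : κ * (4 * c₀ ^ 2 * D) < r)
    (heq : (aeval (fun o : Option (Fin d) => o.elim θ t) F /
        aeval (fun o : Option (Fin d) => o.elim θ t) A) ^ κ =
      (aeval (fun o : Option (Fin d) => o.elim θ t) g₁ /
        aeval (fun o : Option (Fin d) => o.elim θ t) g₂) ^ r) :
    IsAlgebraic (kb t b) (aeval (fun o : Option (Fin d) => o.elim θ t) F /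
        aeval (fun o : Option (Fin d) => o.elim θ t) A) := by
  classical
  let k : IntermediateField (kb t b) Ω := algebraicClosure (kb t b) Ω
  have hkcl : IsAlgClosed k := (algebraicClosure.isAlgClosure (kb t b) Ω).isAlgClosed
  have hk0 : CharZero k := inferInstance
  let K : IntermediateField k Ω := IntermediateField.adjoin k {t b, θ}
  have hxK : t b ∈ K := IntermediateField.subset_adjoin k _ (by simp)
  have hθK : θ ∈ K := IntermediateField.subset_adjoin k _ (by simp)
  let x : K := ⟨t b, hxK⟩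
  let θ' : K := ⟨θ, hθK⟩
  have hxt : Transcendental k x := by
    have h1 : Transcendental k (t b) := (trans_kb t b ht).algebraicClosure
    intro halg
    apply h1
    exact halg.algebraMap (A := Ω)
  have htop : IntermediateField.adjoin k {x, θ'} = ⊤ := by
    apply IntermediateField.lift_injective K
    rw [IntermediateField.lift_adjoin, IntermediateField.lift_top]
    have h1 : Subtype.val '' ({x, θ'} : Set K) = {t b, θ} := by
      rw [Set.image_pair]
    rw [h1]
  have hkS : ∀ c, c ≠ b → t c ∈ k.toSubfield.toSubring := by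
    intro c hc
    have h1 : t c ∈ kb t b := IntermediateField.subset_adjoin ℚ _ ⟨c, hc, rfl⟩
    have h2 : algebraMap (kb t b) Ω ⟨t c, h1⟩ ∈ k := k.algebraMap_mem _
    exact h2
  set ev : MvPolynomial (Option (Fin d)) ℤ →ₐ[ℤ] Ω :=
    aeval (fun o : Option (Fin d) => o.elim θ t) with hev
  have hexp : ∀ (C : ℕ) (p : MvPolynomial (Option (Fin d)) ℤ), p.totalDegree ≤ C →
      ∃ P : ℕ → ℕ → k, ((ev2 C P x θ' : K) : Ω) = ev p ∧ (p ≠ 0 → ne2 C P) := by
    intro C p hp
    obtain ⟨P, hP1, hP2, hP3⟩ := coef2 t b k.toSubfield.toSubring θ hkS C p hp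
    refine ⟨fun i j => ⟨P i j, hP1 i j⟩, ?_, ?_⟩
    · rw [coe_ev2, hev, hP2]
    · intro hp0
      obtain ⟨i, hi, j, hj, hij⟩ := hP3 hp0 ht
      refine ⟨i, hi, j, hj, ?_⟩
      intro h0
      apply hij
      exact congrArg Subtype.val h0
  obtain ⟨H, hH1, hH2⟩ := hexp c₀ h hdeg
  obtain ⟨PA, hPA, -⟩ := hexp _ A hA
  obtain ⟨PF, hPF, -⟩ := hexp _ F hF
  have hevK : ∀ p, ev p ∈ K := by
    intro p
    induction p using MvPolynomial.induction_on with
    | C c =>
      rw [hev, aeval_C, eq_intCast]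
      exact intCast_mem _ _
    | add P Q hP hQ =>
      rw [map_add]
      exact add_mem hP hQ
    | mul_X P o hP =>
      rw [map_mul]
      refine mul_mem hP ?_
      rw [hev, aeval_X]
      rcases o with _ | c
      · exact hθK
      · by_cases hc : c = b
        · rw [hc]
          exact hxK
        · have h1 : algebraMap k Ω ⟨t c, hkS c hc⟩ ∈ K := K.algebraMap_mem _
          exact h1
  obtain ⟨hFF, -, hhx, hhθ⟩ := hc c₀ k K x θ' hxt htop H (hH2 hne) (by
    apply Subtype.val_injective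
    rw [hH1, hh]
    rfl)
  have := hFF
  let a : K := ev2 (c₀ * D) PA x θ'
  let f₀ : K := ev2 (c₀ * D) PF x θ'
  have ha : (a : Ω) = ev A := hPA
  have hf₀ : (f₀ : Ω) = ev F := hPF
  have ha0 : a ≠ 0 := fun h0 => hA0 (by rw [← ha, h0]; rfl)
  have hf0 : f₀ ≠ 0 := fun h0 => hF0 (by rw [← hf₀, h0]; rfl)
  let f : K := f₀ * a⁻¹
  have hf : (f : Ω) = ev F / ev A := by
    have h1 : (f : Ω) = (f₀ : Ω) * (a : Ω)⁻¹ := rfl
    rw [h1, ha, hf₀, div_eq_mul_inv]
  let η : K := ⟨ev g₁ / ev g₂, div_mem (hevK _) (hevK _)⟩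
  have hpow : f ^ κ = η ^ r := by
    apply Subtype.val_injective
    have h1 : ((η ^ r : K) : Ω) = (ev g₁ / ev g₂) ^ r := rfl
    have h2 : ((f ^ κ : K) : Ω) = (f : Ω) ^ κ := rfl
    rw [h1, ← heq, h2, hf]
  have hhf : hgt k f ≤ ((4 * c₀ ^ 2 * D : ℕ) : ℤ) := by
    have h2 := hgt_mul (k := k) hf0 (inv_ne_zero ha0)
    rw [hgt_inv] at h2
    have h3 := Pool.Agent.N618.HB.hgt_ev2 (c₀ * D) PF hf0
    have h4 := Pool.Agent.N618.HB.hgt_ev2 (c₀ * D) PA ha0
    have h5 : ((c₀ * D : ℕ) : ℤ) * (hgt k x + hgt k θ') ≤ ((c₀ * D : ℕ) : ℤ) * (c₀ + c₀) :=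
      mul_le_mul_of_nonneg_left (by linarith) (Int.natCast_nonneg _)
    have h6 : hgt k f ≤ hgt k f₀ + hgt k a := h2
    have h7 : hgt k f₀ ≤ ((c₀ * D : ℕ) : ℤ) * (hgt k x + hgt k θ') := h3
    have h8 : hgt k a ≤ ((c₀ * D : ℕ) : ℤ) * (hgt k x + hgt k θ') := h4
    push_cast at *
    nlinarith
  obtain ⟨c, hc'⟩ := const_of_pow hhf hr hpow hκ1
  rw [← hf, hc']
  exact mem_algebraicClosure_iff.1 c.2

/-! ### algebraic over the rational numbers -/

theorem alg_inter {Ω : Type} [Field Ω] [CharZero Ω] {d : ℕ} (t : Fin d → Ω)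
    (ht : AlgebraicIndependent ℤ t) (f : Ω)
    (h0 : IsAlgebraic (Algebra.adjoin ℚ (Set.range t)) f)
    (h1 : ∀ b, IsAlgebraic (kb t b) f) : IsAlgebraic ℚ f := by
  have hQ : Algebra.IsAlgebraic ℤ ℚ := IsLocalization.isAlgebraic ℚ (nonZeroDivisors ℤ)
  have ht' : AlgebraicIndependent ℚ t := ht.extendScalars ℚ
  have hI : (AlgebraicIndependent.matroid ℚ Ω).Indep (Set.range t) := ht'.to_subtype_range
  let J : Option (Fin d) → Set Ω := fun o =>
    o.elim (Set.range t) fun b => {x : Ω | ∃ c, c ≠ b ∧ x = t c}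
  have hJ : ∀ o, J o ⊆ Set.range t := by
    intro o
    cases o with
    | none => exact subset_rfl
    | some b =>
      rintro x ⟨c, -, rfl⟩
      exact ⟨c, rfl⟩
  have hcl : ∀ o, f ∈ (AlgebraicIndependent.matroid ℚ Ω).closure (J o) := by
    intro o
    rw [AlgebraicIndependent.matroid_closure_eq]
    cases o with
    | none => exact h0
    | some b =>
      have h2 := h1 b
      have h3 : IsAlgebraic (Algebra.adjoin ℚ {x : Ω | ∃ c, c ≠ b ∧ x = t c}) f := by
        by_contra h4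
        exact (IntermediateField.transcendental_adjoin_iff.2 h4) h2
      exact h3
  have hcap := hI.closure_iInter_eq_biInter_closure_of_forall_subset hJ
  have hf : f ∈ (AlgebraicIndependent.matroid ℚ Ω).closure (⋂ o, J o) := by
    rw [hcap]
    exact Set.mem_iInter.2 hcl
  have hemp : ⋂ o, J o = ∅ := by
    rw [Set.eq_empty_iff_forall_notMem]
    intro x hx
    rw [Set.mem_iInter] at hx
    obtain ⟨c, rfl⟩ := hx none
    obtain ⟨c', h2, h3⟩ := hx (some c)
    exact h2 (ht'.injective h3).symm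
  rw [hemp, AlgebraicIndependent.matroid_closure_eq, Algebra.adjoin_empty] at hf
  exact Subalgebra.isAlgebraic_of_isAlgebraic_bot hf

theorem const_coeff {Ω : Type} [Field Ω] [CharZero Ω] {d : ℕ} (t : Fin d → Ω)
    (ht : AlgebraicIndependent ℤ t) (f : Ω) (hf : IsAlgebraic ℚ f)
    (P : Polynomial (MvPolynomial (Fin d) ℤ)) (hP : P.eval₂ (aeval t).toRingHom f = 0)
    (m : Fin d →₀ ℕ) :
    ∑ i ∈ Finset.range (P.natDegree + 1), (((P.coeff i).coeff m : ℤ) : Ω) * f ^ i = 0 := by
  have hQ : Algebra.IsAlgebraic ℤ ℚ := IsLocalization.isAlgebraic ℚ (nonZeroDivisors ℤ)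
  have ht' : AlgebraicIndependent ℚ t := ht.extendScalars ℚ
  let E : IntermediateField ℚ Ω := algebraicClosure ℚ Ω
  have hEa : Algebra.IsAlgebraic ℚ E := algebraicClosure.isAlgebraic ℚ Ω
  have hE : AlgebraicIndependent E t := ht'.extendScalars E
  let f' : E := ⟨f, mem_algebraicClosure_iff.2 hf⟩
  let Q : MvPolynomial (Fin d) E := ∑ i ∈ Finset.range (P.natDegree + 1),
    C (f' ^ i) * map (Int.castRingHom E) (P.coeff i)
  have hQ0 : aeval t Q = 0 := by
    rw [← hP, Polynomial.eval₂_eq_sum_range, map_sum]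
    refine Finset.sum_congr rfl fun i _ => ?_
    have h1 : aeval t (map (Int.castRingHom E) (P.coeff i)) = aeval t (P.coeff i) := by
      rw [aeval_def, eval₂_map, aeval_def]
      congr 1
    rw [map_mul, h1, aeval_C, mul_comm]
    rfl
  have hQ1 : Q = 0 := (injective_iff_map_eq_zero _).1 hE _ hQ0
  have h2 := congrArg (fun q => ((coeff m q : E) : Ω)) hQ1
  simp only [Q, coeff_sum, coeff_C_mul, coeff_map, coeff_zero] at h2
  rw [← ZeroMemClass.coe_zero E, ← h2]
  push_cast
  refine Finset.sum_congr rfl fun i _ => ?_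
  rw [mul_comm]
  congr 1

theorem constΨ (hc : S_can) (Ω : Type) [Field Ω] [CharZero Ω] [IsAlgClosed Ω] (d c₀ k₀ : ℕ)
    (ψ : MvPolynomial (Option (Fin d)) ℤ →+* Ω)
    (hind : ∀ c : MvPolynomial (Fin d) ℤ, c ≠ 0 → ψ (rename some c) ≠ 0) (D : ℕ)
    (h A F : MvPolynomial (Option (Fin d)) ℤ) (hD : 1 ≤ D) (hne : h ≠ 0) (hdeg : h.totalDegree ≤ c₀)
    (hA : A.totalDegree ≤ c₀ * D) (hF : F.totalDegree ≤ c₀ * D)
    (hh : ψ h = 0) (hA0 : ψ A ≠ 0) (hF0 : ψ F ≠ 0)
    (κ r : ℕ) (g₁ g₂ : MvPolynomial (Option (Fin d)) ℤ) (hκ1 : 1 ≤ κ) (hκ : κ ≤ k₀)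
    (hr : (k₀ * (4 * c₀ ^ 2) + 1) * D ≤ r)
    (heq : (ψ F / ψ A) ^ κ = (ψ g₁ / ψ g₂) ^ r)
    (P : Polynomial (MvPolynomial (Fin d) ℤ)) (hP1 : P ≠ 0) (hPn : P.natDegree ≤ c₀)
    (hP : P.eval₂ (ψ.comp (rename some).toRingHom) (ψ F / ψ A) = 0) :
    ∃ p : Fin (c₀ + 1) → ℤ, p ≠ 0 ∧
      ∑ j : Fin (c₀ + 1), (p j : Ω) * (ψ F ^ (j : ℕ) * ψ A ^ (c₀ - j)) = 0 := by
  classical
  let t : Fin d → Ω := fun b => ψ (X (some b))
  let θ : Ω := ψ (X none)
  let f : Ω := ψ F / ψ A
  have hev : ∀ p : MvPolynomial (Option (Fin d)) ℤ,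
      aeval (fun o : Option (Fin d) => o.elim θ t) p = ψ p := by
    intro p
    have h3 : (aeval (fun o : Option (Fin d) => o.elim θ t) :
        MvPolynomial (Option (Fin d)) ℤ →ₐ[ℤ] Ω).toRingHom = ψ := by
      apply MvPolynomial.ringHom_ext
      · intro c
        rw [AlgHom.toRingHom_eq_coe, RingHom.coe_coe, aeval_C, eq_intCast, eq_intCast, map_intCast]
      · intro o
        rw [AlgHom.toRingHom_eq_coe, RingHom.coe_coe, aeval_X]
        rcases o with _ | c
        · rfl
        · rfl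
    exact RingHom.congr_fun h3 p
  have hevt : ∀ p : MvPolynomial (Fin d) ℤ, aeval t p = ψ (rename some p) := by
    intro p
    rw [← hev, aeval_rename]
    rfl
  have ht : AlgebraicIndependent ℤ t := by
    refine (injective_iff_map_eq_zero _).2 fun p hp => ?_
    by_contra hp0
    exact hind p hp0 (by rw [← hevt]; exact hp)
  have hPf : P.eval₂ (aeval t).toRingHom f = 0 := by
    have h3 : (aeval t).toRingHom = ψ.comp (rename some).toRingHom := RingHom.ext hevt
    rw [h3]
    exact hP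
  have halg : ∀ b, IsAlgebraic (kb t b) f := by
    intro b
    have hd := dirC hc Ω d t θ b ht c₀ D h A F hne hdeg hA hF (by rw [hev, hh])
      (by rw [hev]; exact hA0) (by rw [hev]; exact hF0) κ r g₁ g₂ hκ1 (by
        calc κ * (4 * c₀ ^ 2 * D) ≤ k₀ * (4 * c₀ ^ 2 * D) := Nat.mul_le_mul_right _ hκ
          _ < (k₀ * (4 * c₀ ^ 2) + 1) * D := by nlinarith
          _ ≤ r := hr) (by rw [hev, hev, hev, hev, heq])
    rw [hev, hev] at hd
    exact hd
  have halg0 : IsAlgebraic (Algebra.adjoin ℚ (Set.range t)) f := by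
    have hmem : ∀ p : MvPolynomial (Fin d) ℤ, aeval t p ∈ Algebra.adjoin ℚ (Set.range t) := by
      intro p
      induction p using MvPolynomial.induction_on with
      | C c =>
        rw [aeval_C, eq_intCast]
        exact intCast_mem _ _
      | add P Q hP hQ =>
        rw [map_add]
        exact add_mem hP hQ
      | mul_X P o hP =>
        rw [map_mul, aeval_X]
        exact mul_mem hP (Algebra.subset_adjoin ⟨o, rfl⟩)
    let g : MvPolynomial (Fin d) ℤ →+* Algebra.adjoin ℚ (Set.range t) :=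
      RingHom.codRestrict (aeval t).toRingHom _ hmem
    have hg : Function.Injective g := by
      rw [injective_iff_map_eq_zero]
      intro p hp
      apply (injective_iff_map_eq_zero _).1 ht
      exact congrArg Subtype.val hp
    refine ⟨P.map g, (Polynomial.map_ne_zero_iff hg).2 hP1, ?_⟩
    rw [Polynomial.aeval_def, Polynomial.eval₂_map]
    exact hPf
  have hfQ := alg_inter t ht f halg0 halg
  obtain ⟨i₀, hi₀⟩ : ∃ i, P.coeff i ≠ 0 := by
    by_contra hcon
    push Not at hcon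
    exact hP1 (Polynomial.ext fun i => by rw [hcon i, Polynomial.coeff_zero])
  obtain ⟨m, hm⟩ : ∃ m, (P.coeff i₀).coeff m ≠ 0 := by
    by_contra hcon
    push Not at hcon
    exact hi₀ (MvPolynomial.ext _ _ fun m => by rw [hcon m, coeff_zero])
  have hcc := const_coeff t ht f hfQ P hPf m
  have hi₀n : i₀ ≤ P.natDegree := Polynomial.le_natDegree_of_ne_zero hi₀
  refine ⟨fun j => (P.coeff j).coeff m, ?_, ?_⟩
  · intro h0
    apply hm
    exact congrFun h0 ⟨i₀, by omega⟩
  · have hsum : ∑ j : Fin (c₀ + 1), (((P.coeff j).coeff m : ℤ) : Ω) * f ^ (j : ℕ) = 0 := by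
      rw [Finset.sum_fin_eq_sum_range]
      rw [← hcc]
      symm
      have hsub : Finset.range (P.natDegree + 1) ⊆ Finset.range (c₀ + 1) :=
        Finset.range_subset_range.2 (by omega)
      rw [← Finset.sum_subset hsub]
      · refine Finset.sum_congr rfl fun i hi => ?_
        have hi' := Finset.mem_range.1 (hsub hi)
        rw [dif_pos hi']
      · intro i hi hi2
        have hi' := Finset.mem_range.1 hi
        rw [dif_pos hi']
        have h3 : P.coeff i = 0 := Polynomial.coeff_eq_zero_of_natDegree_lt (by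
          by_contra hcon
          exact hi2 (Finset.mem_range.2 (by omega)))
        simp only [h3, coeff_zero, Int.cast_zero, zero_mul]
    have hkey : ∀ j : Fin (c₀ + 1), (((P.coeff j).coeff m : ℤ) : Ω) *
        (ψ F ^ (j : ℕ) * ψ A ^ (c₀ - j)) =
        ψ A ^ c₀ * ((((P.coeff j).coeff m : ℤ) : Ω) * f ^ (j : ℕ)) := by
      intro j
      have h4 : ψ A ^ c₀ = ψ A ^ (j : ℕ) * ψ A ^ (c₀ - j) := by
        rw [← pow_add, Nat.add_sub_cancel' (Nat.lt_succ_iff.1 j.2)]
      have h5 : ψ F ^ (j : ℕ) = ψ A ^ (j : ℕ) * f ^ (j : ℕ) := by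
        rw [← mul_pow, show ψ A * f = ψ F from mul_div_cancel₀ _ hA0]
      rw [h4, h5]
      ring
    rw [Finset.sum_congr rfl fun j _ => hkey j, ← Finset.mul_sum, hsum, mul_zero]

theorem const_of_can (hc : S_can) : S_const := by
  classical
  intro d c₀ k₀
  refine ⟨k₀ * (4 * c₀ ^ 2) + 1, c₀, ?_⟩
  intro h hI hdeg D A F hD hA hF hA0 hF0 κ r g₁ g₂ hκ1 hκ hr hg1 hg2 heq
  obtain ⟨L, _, φ, hφ, hfrac⟩ := exL h hI
  let t : Fin d → L := fun b => φ (X (some b))
  let θ : L := φ (X none)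
  have hφe : ∀ p, φ p = aeval (fun o : Option (Fin d) => o.elim θ t) p := by
    intro p
    have h3 : φ = (aeval (fun o : Option (Fin d) => o.elim θ t) :
        MvPolynomial (Option (Fin d)) ℤ →ₐ[ℤ] L).toRingHom := by
      apply MvPolynomial.ringHom_ext
      · intro c
        rw [AlgHom.toRingHom_eq_coe, RingHom.coe_coe, aeval_C, eq_intCast, eq_intCast, map_intCast]
      · intro o
        rw [AlgHom.toRingHom_eq_coe, RingHom.coe_coe, aeval_X]
        rcases o with _ | c
        · rfl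
        · rfl
    exact RingHom.congr_fun h3 p
  have hren : ∀ c : MvPolynomial (Fin d) ℤ, φ (rename some c) = aeval t c := by
    intro c
    rw [hφe, aeval_rename]
    rfl
  have hren0 : ∀ c : MvPolynomial (Fin d) ℤ, c ≠ 0 → φ (rename some c) ≠ 0 := by
    intro c hc h0
    rw [hφ] at h0
    obtain ⟨c', hc', h3⟩ := h0
    apply hI.one
    refine ⟨c' * c, mul_ne_zero hc' hc, ?_⟩
    rw [mul_one, map_mul]
    exact h3
  have hchar : CharZero L := by
    apply charZero_of_inj_zero
    intro m hm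
    by_contra hm0
    have h3 : (C (m : ℤ) : MvPolynomial (Fin d) ℤ) ≠ 0 := by
      rw [Ne, C_eq_zero]
      exact_mod_cast hm0
    apply hren0 _ h3
    rw [hren, aeval_C, eq_intCast]
    exact_mod_cast hm
  have ht : AlgebraicIndependent ℤ t := by
    refine (injective_iff_map_eq_zero _).2 fun p hp => ?_
    by_contra hp0
    exact hren0 p hp0 (by rw [hren]; exact hp)
  have hhh : φ h = 0 := by
    rw [hφ]
    exact ⟨1, one_ne_zero, dvd_mul_left _ _⟩
  have hdegH : (optionEquivLeft ℤ (Fin d) h).natDegree ≤ c₀ := by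
    rw [natDegree_optionEquivLeft]
    exact (degreeOf_le_totalDegree h none).trans hdeg
  have hφA : φ A ≠ 0 := fun h0 => hA0 ((hφ _).1 h0)
  have hφF : φ F ≠ 0 := fun h0 => hF0 ((hφ _).1 h0)
  have hg10 : φ g₁ ≠ 0 := fun h0 => hg1 ((hφ _).1 h0)
  have hg20 : φ g₂ ≠ 0 := fun h0 => hg2 ((hφ _).1 h0)
  have heq' : (φ F / φ A) ^ κ = (φ g₁ / φ g₂) ^ r := by
    have h3 := (hφ _).2 heq
    rw [map_sub, map_mul, map_mul, map_pow, map_pow, map_pow, map_pow, sub_eq_zero] at h3
    rw [div_pow, div_pow, div_eq_div_iff (pow_ne_zero _ hφA) (pow_ne_zero _ hg20), h3]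
    ring
  -- the relation over the rational functions
  obtain ⟨P, hP1, hP2, hP3⟩ := degL t θ ht (optionEquivLeft ℤ (Fin d) h) (by
      rw [Ne, map_eq_zero_iff _ (optionEquivLeft ℤ (Fin d)).injective]
      exact hI.ne) (by rw [← ev_left, ← hφe, hhh]) (fun z => by
        obtain ⟨a, b, _, hz⟩ := hfrac z
        exact ⟨a, b, by rw [hz, hφe, hφe]⟩) (φ F / φ A)
  -- in the algebraic closure
  let ι : L →+* AlgebraicClosure L := algebraMap L (AlgebraicClosure L)
  let ψ : MvPolynomial (Option (Fin d)) ℤ →+* AlgebraicClosure L := ι.comp φ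
  have hψ : ∀ p, ι (φ p) = ψ p := fun p => rfl
  have hch : CharZero (AlgebraicClosure L) := charZero_of_injective_algebraMap ι.injective
  obtain ⟨p, hp0, hp⟩ := constΨ hc (AlgebraicClosure L) d c₀ k₀ ψ (fun c hc => by
      rw [← hψ, Ne, map_eq_zero_iff _ ι.injective]
      exact hren0 c hc) D h A F hD hI.ne hdeg hA hF (by rw [← hψ, hhh, map_zero])
    (by rw [← hψ]; exact (map_ne_zero _).2 hφA) (by rw [← hψ]; exact (map_ne_zero _).2 hφF)
    κ r g₁ g₂ hκ1 hκ hr (by
      have h3 := congrArg ι heq'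
      rw [map_pow, map_pow, map_div₀, map_div₀] at h3
      exact h3)
    P hP1 (hP2.trans hdegH) (by
      have h3 : ψ.comp (rename some).toRingHom = ι.comp (aeval t).toRingHom := by
        refine RingHom.ext fun p => ?_
        change ι (φ (rename some p)) = ι (aeval t p)
        rw [hren]
      have h4 : ψ F / ψ A = ι (φ F / φ A) := (map_div₀ ι _ _).symm
      rw [h3, h4, ← Polynomial.hom_eval₂, hP3, map_zero])
  refine ⟨p, hp0, ?_⟩
  rw [← hφ, ← map_eq_zero_iff _ ι.injective, ← hp, map_sum, map_sum]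
  refine Finset.sum_congr rfl fun j _ => ?_
  have h6 : φ (C (p j)) = ((p j : ℤ) : L) := by
    rw [hφe, aeval_C, eq_intCast]
  rw [map_mul, map_mul, h6, map_mul, map_mul, map_pow, map_pow, map_pow, map_pow, map_intCast]
  rfl

/-- **HB/17**: functions with trivial divisors are constant -/
theorem const : S_const := const_of_can Pool.Agent.N966.HB.can

end Pool.Agent.N426.HB
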